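import Pool.Agent.Y415.RB.Rate

/-!
# The number of regular Boolean matrices, with error terms

The number of regular elements of the monoid of all `n × n` Boolean matrices is given by an
explicit finite sum up to an exponentially small relative error, and by an explicit closed form
up to a relative error of order `(log n)² / n`.
-/

set_option autoImplicit false

namespace Pool.Agent.Results.MP_72200a_co.ErrorTerms

open Finset Filter

/-- The product of two Boolean matrices: entry (i,j) is the maximum over k of min(A i k, B k j). -/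
def bmul {n : ℕ} (A B : Fin n → Fin n → Bool) : Fin n → Fin n → Bool :=
  fun i j => decide (∃ k, A i k = true ∧ B k j = true)

/-- A Boolean matrix `A` is regular if `A X A = A` for some Boolean matrix `X`. -/
def IsRegular {n : ℕ} (A : Fin n → Fin n → Bool) : Prop := ∃ X, bmul (bmul A X) A = A

/-- The number of regular `n × n` Boolean matrices. -/
noncomputable def numRegular (n : ℕ) : ℕ := Nat.card {A : Fin n → Fin n → Bool // IsRegular A}

/-- The sum `∑_{r=0}^{n} C(n,r)² r! 4^{r(n-r)}`. -/
noncomputable def mainSum (n : ℕ) : ℝ :=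
  ∑ r ∈ range (n + 1), (n.choose r : ℝ) ^ 2 * (r.factorial : ℝ) * 4 ^ (r * (n - r))

/-- The closed form
`2^{n²/2 + 2n + 1} / √(π n) · (n / (2e))^{n/2} · exp ((log (n/2))² / (8 log 2)) · θ_n` with
`θ_n = ∑_{k ∈ ℤ} 4^{-(k - n/2 - log (n/2) / (4 log 2))²}`. -/
noncomputable def closedForm (n : ℕ) : ℝ :=
  (2:ℝ)^((n:ℝ)^2/2 + 2 * n + 1) / √(Real.pi * n) * ((n:ℝ) / (2 * Real.exp 1))^((n:ℝ)/2) *
    Real.exp ((Real.log ((n:ℝ)/2))^2 / (8 * Real.log 2)) *
    ∑' k : ℤ, (4:ℝ)^(-((k:ℝ) - (n:ℝ)/2 - Real.log ((n:ℝ)/2) / (4 * Real.log 2))^2)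

theorem numRegular_eq (n : ℕ) : numRegular n = RegularBooleanClosedForm.numRegular n := rfl

theorem mainSum_eq (n : ℕ) : mainSum n = (RegularBooleanClosedForm.ff n : ℝ) := by
  unfold mainSum RegularBooleanClosedForm.ff
  push_cast
  rfl

/-- (1) The relative error of the explicit sum is at most `s ^ n` for all large `n`, for every
`s > 991/1000`. (2) The relative error of the closed form is at most `1000 (log n)² / n` for all
large `n`. In particular (3) both quotients tend to `1`. -/
theorem result :
    (∀ s : ℝ, 991 / 1000 < s →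
      ∀ᶠ n : ℕ in atTop, |(numRegular n : ℝ) / mainSum n - 1| ≤ s ^ n) ∧
    (∀ᶠ n : ℕ in atTop,
      |(numRegular n : ℝ) / closedForm n - 1| ≤ 1000 * (Real.log n) ^ 2 / n) ∧
    Tendsto (fun n : ℕ => (numRegular n : ℝ) / mainSum n) atTop (nhds 1) ∧
    Tendsto (fun n : ℕ => (numRegular n : ℝ) / closedForm n) atTop (nhds 1) := by
  simp only [numRegular_eq]
  refine ⟨fun s hs => ?_, ?_, ?_, RegularBooleanClosedForm.closed2⟩
  · filter_upwards [Pool.Agent.Y415.RB.rel_error s hs] with n hn
    rw [mainSum_eq]
    exact hn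
  · filter_upwards [Pool.Agent.Y415.RB.rel_error (995 / 1000) (by norm_num),
      Pool.Agent.Y415.RB.ff_gg_rate, eventually_ge_atTop 1000,
      Pool.Agent.Y415.RB.decayE 1 1 (995 / 1000) 1 (by norm_num) (by norm_num)]
      with n h1 h2 hn h3
    obtain ⟨h2, h4⟩ := h2
    have hn0 : (1000:ℝ) ≤ n := by exact_mod_cast hn
    have hnp : (0:ℝ) < n := by linarith
    rw [pow_one, one_mul, one_pow] at h3
    have hL : 1 ≤ Real.log n := by
      rw [Real.le_log_iff_exp_le hnp]
      have := Real.exp_one_lt_d9
      linarith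
    have e : closedForm n = RegularBooleanClosedForm.gg n :=
      (RegularBooleanClosedForm.gg_eq n (by omega)).symm
    have hff := Pool.Agent.Y415.RB.ff_pos n
    have hgg : 0 ≤ (RegularBooleanClosedForm.ff n : ℝ) / RegularBooleanClosedForm.gg n := by
      refine div_nonneg hff.le ?_
      unfold RegularBooleanClosedForm.gg
      exact mul_nonneg (RegularBooleanClosedForm.cc_pos n (by omega)).le
        (tsum_nonneg fun k => (RegularBooleanClosedForm.bb_pos n (by omega) k).le)
    rw [e]
    have e1 : (RegularBooleanClosedForm.numRegular n : ℝ) / RegularBooleanClosedForm.gg n =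
        (RegularBooleanClosedForm.numRegular n : ℝ) / RegularBooleanClosedForm.ff n *
          (RegularBooleanClosedForm.ff n / RegularBooleanClosedForm.gg n) := by
      field_simp
    rw [e1]
    generalize (RegularBooleanClosedForm.numRegular n : ℝ) / RegularBooleanClosedForm.ff n = x at *
    generalize (RegularBooleanClosedForm.ff n : ℝ) / RegularBooleanClosedForm.gg n = y at *
    have h6 : x * y - 1 = (x - 1) * y + (y - 1) := by ring
    rw [h6]
    refine (abs_add_le _ _).trans ?_
    rw [abs_mul, abs_of_nonneg hgg]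
    have h7 : |x - 1| * y ≤ (995 / 1000) ^ n * 2 := mul_le_mul h1 h4 hgg (by positivity)
    have h8 : ((995:ℝ) / 1000) ^ n * 2 ≤ 10 * (Real.log n) ^ 2 / n := by
      rw [le_div_iff₀ hnp]
      nlinarith
    calc |x - 1| * y + |y - 1| ≤ 10 * (Real.log n) ^ 2 / n + 990 * (Real.log n) ^ 2 / n :=
          add_le_add (h7.trans h8) h2
      _ = 1000 * (Real.log n) ^ 2 / n := by ring
  · refine RegularBooleanClosedForm.main.congr fun n => ?_
    rw [mainSum_eq]

end Pool.Agent.Results.MP_72200a_co.ErrorTerms
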